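import Pool.Agent.H.MP_3f8f93_al.Pump
import Pool.Agent.Lib.helper22.IM

set_option autoImplicit false

namespace Pool.Agent.H.MP_3f8f93_al

open FreeGroup hiding map_mul map_one map_inv
open Pool.Agent.Lib.Munn
open scoped Pointwise

structure MM (X M : Type) [Monoid M] where mk' ::
  q : List (X × Bool) → M
  nil : q [] = 1
  app : ∀ u v, q (u ++ v) = q u * q v
  surj : ∀ x, ∃ u, q u = x
  eq : ∀ u v, q u = q v ↔ mu u = mu v

variable {X M : Type} [Monoid M] (K : MM X M)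

namespace MM

noncomputable def out (x : M) : List (X × Bool) := (K.surj x).choose
lemma q_out (x : M) : K.q (K.out x) = x := (K.surj x).choose_spec
def τ (x : M) : Set (FreeGroup X) := T (K.out x)
noncomputable def σ (x : M) : FreeGroup X := mk (K.out x)
noncomputable def iv (x : M) : M := K.q (invRev (K.out x))

lemma τ_q (w : List (X × Bool)) : K.τ (K.q w) = T w := congrArg Prod.fst ((K.eq _ _).1 (K.q_out _))
lemma σ_q (w : List (X × Bool)) : K.σ (K.q w) = mk w := congrArg Prod.snd ((K.eq _ _).1 (K.q_out _))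
lemma ext {x y : M} (h : K.τ x = K.τ y) (k : K.σ x = K.σ y) : x = y := by
  rw [← K.q_out x, ← K.q_out y, K.eq]; exact Prod.ext h k
lemma τ_mul (x y : M) : K.τ (x * y) = K.τ x ∪ K.σ x • K.τ y := by
  rw [← K.q_out x, ← K.q_out y, ← K.app, τ_q, T_app, τ_q, τ_q, σ_q]
lemma σ_mul (x y : M) : K.σ (x * y) = K.σ x * K.σ y := by
  rw [← K.q_out x, ← K.q_out y, ← K.app, σ_q, σ_q, σ_q, mul_mk]
lemma τ_one : K.τ 1 = {1} := by rw [← K.nil, τ_q, T_nil]
lemma σ_one : K.σ 1 = 1 := by rw [← K.nil, σ_q]; rfl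
lemma τ_iv (x : M) : K.τ (K.iv x) = (K.σ x)⁻¹ • K.τ x := by rw [iv, τ_q, T_inv]; rfl
lemma σ_iv (x : M) : K.σ (K.iv x) = (K.σ x)⁻¹ := by rw [iv, σ_q, ← inv_mk]; rfl
lemma one_τ (x : M) : 1 ∈ K.τ x := one_T _
lemma σ_τ (x : M) : K.σ x ∈ K.τ x := mk_T _
lemma mem_τ {x : M} {g : FreeGroup X} (h : g ∈ K.τ x) : ∃ y z, x = y * z ∧ K.σ y = g := by
  obtain ⟨k, rfl⟩ := h
  exact ⟨K.q _, K.q _, by rw [← K.app, List.take_append_drop, q_out], K.σ_q _⟩
lemma w1 (x : M) : x * K.iv x * x = x :=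
  K.ext (by simp [τ_mul, σ_mul, τ_iv, σ_iv]) (by simp [σ_mul, σ_iv])
lemma w2 (x : M) : K.iv x * x * K.iv x = K.iv x :=
  K.ext (by simp [τ_mul, σ_mul, τ_iv, σ_iv]) (by simp [σ_mul, σ_iv])
lemma σ_reg {a b : M} (h : a * b * a = a) : K.σ b = (K.σ a)⁻¹ := by
  have := congrArg K.σ h
  rw [σ_mul, σ_mul, mul_assoc, mul_eq_left] at this
  exact eq_inv_of_mul_eq_one_left this
lemma τ_reg {a b : M} (h : a * b * a = a) (h' : b * a * b = b) : K.τ (a * b) = K.τ a := by
  refine Set.Subset.antisymm ?_ (K.τ_mul a b ▸ Set.subset_union_left)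
  conv_rhs => rw [← h, τ_mul]
  exact Set.subset_union_left
lemma σ_pow (x : M) (n : ℕ) : K.σ (x ^ n) = K.σ x ^ n := by
  induction n with
  | zero => simp [σ_one]
  | succ n ih => rw [pow_succ, σ_mul, ih, pow_succ]

variable (φ : M →* M)

noncomputable def bar : FreeGroup X →* FreeGroup X := lift fun a => K.σ (φ (K.q [(a, true)]))

lemma σ_φ (x : M) : K.σ (φ x) = K.bar φ (K.σ x) := by
  obtain ⟨w, rfl⟩ := K.surj x
  rw [σ_q]
  induction w with
  | nil => rw [K.nil, map_one, σ_one, ← one_eq_mk, map_one]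
  | cons l w ih =>
    rw [← List.singleton_append, K.app, map_mul, σ_mul, ih, ← mul_mk, map_mul]
    obtain ⟨a, _ | _⟩ := l
    · have : K.q [(a, true)] * K.q [(a, false)] * K.q [(a, true)] = K.q [(a, true)] := by
        have e : mk [(a, false)] = (mk [(a, true)])⁻¹ := rfl
        have e' : T [(a, false)] = (mk [(a, true)])⁻¹ • T [(a, true)] := T_inv [(a, true)]
        refine K.ext ?_ (by simp only [σ_mul, σ_q, e, mul_inv_cancel, one_mul])
        simp only [τ_mul, σ_mul, σ_q, τ_q, e, e', mul_inv_cancel, one_smul, smul_inv_smul,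
          Set.union_self]
      rw [K.σ_reg (a := φ (K.q [(a, true)])) (by rw [← map_mul, ← map_mul, this])]
      simp [bar]
    · simp [bar]

lemma inv_τ {x : M} (h : φ x = x) {g : FreeGroup X} (k : g ∈ K.τ x) : K.bar φ g ∈ K.τ x := by
  obtain ⟨y, z, rfl, rfl⟩ := K.mem_τ k
  rw [← h, map_mul, τ_mul, ← σ_φ]
  exact .inl (K.σ_τ _)

omit K in
lemma it_mul (n : ℕ) (x y : M) : φ^[n] (x * y) = φ^[n] x * φ^[n] y := iterate_map_mul φ n x y

lemma σ_it {x : M} (h : K.bar φ (K.σ x) = K.σ x) (n : ℕ) : K.σ (φ^[n] x) = K.σ x := by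
  induction n with
  | zero => rfl
  | succ n ih => rw [Function.iterate_succ_apply', σ_φ, ih, h]

def O (x : M) : Set (FreeGroup X) := ⋃ k, K.τ (φ^[k] x)

lemma O_mul {x : M} (h : K.bar φ (K.σ x) = K.σ x) (y : M) :
    K.O φ (x * y) = K.O φ x ∪ K.σ x • K.O φ y := by
  simp only [O, it_mul, τ_mul, K.σ_it φ h, Set.iUnion_union_distrib, Set.smul_set_iUnion]

lemma O_fix {x : M} (h : φ x = x) : K.O φ x = K.τ x := by
  simp only [O, Function.iterate_fixed h, Set.iUnion_const]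

lemma exE {x : M} {N : ℕ} (N0 : 0 < N) (h : φ^[N] x = x) :
    ∃ e, φ e = e ∧ K.σ e = 1 ∧ K.τ e = K.O φ x := by
  have key : ∀ n, ∃ e, ∀ j, K.σ (φ^[j] e) = 1 ∧
      ∀ g, g ∈ K.τ (φ^[j] e) ↔ g = 1 ∨ ∃ k < n, g ∈ K.τ (φ^[j + k] x) := by
    intro n
    induction n with
    | zero => exact ⟨1, fun j => by simp [iterate_map_one, σ_one, τ_one]⟩
    | succ n ih =>
      obtain ⟨e, ih⟩ := ih
      refine ⟨e * φ^[n] (x * K.iv x), fun j => ?_⟩
      have a : φ^[j + n] x * φ^[j + n] (K.iv x) * φ^[j + n] x = φ^[j + n] x := by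
        rw [← it_mul, ← it_mul, w1]
      have b : φ^[j + n] (K.iv x) * φ^[j + n] x * φ^[j + n] (K.iv x) = φ^[j + n] (K.iv x) := by
        rw [← it_mul, ← it_mul, w2]
      rw [it_mul, ← Function.iterate_add_apply, it_mul, τ_mul, K.τ_reg a b, σ_mul, σ_mul, K.σ_reg a,
        (ih j).1]
      refine ⟨by simp, fun g => ?_⟩
      rw [one_smul, Set.mem_union, (ih j).2, or_assoc, Nat.exists_lt_succ_right]
  obtain ⟨e, he⟩ := key N
  have k : ∀ j, K.τ (φ^[j] e) = K.O φ x := fun j => Set.ext fun g => by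
    rw [(he j).2, O, Set.mem_iUnion]
    refine ⟨?_, fun ⟨k, a⟩ => .inr ⟨(k + j * (N - 1)) % N, Nat.mod_lt _ N0, ?_⟩⟩
    · rintro (rfl | ⟨k, -, a⟩)
      exacts [⟨0, K.one_τ _⟩, ⟨_, a⟩]
    · have p : Function.IsPeriodicPt φ N x := h
      obtain ⟨N, rfl⟩ := Nat.exists_eq_add_of_lt N0
      rwa [Function.iterate_add_apply, p.iterate_mod_apply, ← Function.iterate_add_apply,
        show j + (k + j * (0 + N + 1 - 1)) = k + (0 + N + 1) * j by simp; ring,
        Function.iterate_add_apply, (p.mul_const j).eq]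
  exact ⟨e, K.ext ((k 1).trans (k 0).symm) ((he 1).1.trans (he 0).1.symm), (he 0).1, k 0⟩

def B (l : X × Bool) : Prop := (Set.range fun n => φ^[n] (K.q [l])).Finite

lemma B_of {w : List (X × Bool)} (h : φ (K.q w) = K.q w) {l : X × Bool} (hl : l ∈ w) : K.B φ l := by
  obtain ⟨u, v, rfl⟩ := List.append_of_mem hl
  generalize e : K.q (u ++ l :: v) = x at h
  have f : (K.τ x).Finite := T_fin _
  have f' : (⋃ g ∈ K.τ x, g⁻¹ • K.τ x).Finite := f.biUnion fun g _ => f.smul_set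
  refine Set.Finite.of_finite_image (f := fun y => (K.τ y, K.σ y)) ((f'.finite_subsets.prod f').subset ?_)
    fun y _ z _ e => K.ext (congrArg Prod.fst e) (congrArg Prod.snd e)
  rintro _ ⟨_, ⟨n, rfl⟩, rfl⟩
  have := Function.iterate_fixed h n
  rw [← e, ← List.singleton_append, K.app, K.app, it_mul, it_mul, ← K.app, ← K.app,
    List.singleton_append, e] at this
  have a : K.τ (φ^[n] (K.q [l])) ⊆ ⋃ g ∈ K.τ x, g⁻¹ • K.τ x := fun g k =>
    Set.mem_biUnion (x := K.σ (φ^[n] (K.q u))) (by rw [← this, τ_mul]; exact .inl (K.σ_τ _)) (by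
      rw [Set.mem_inv_smul_set_iff, ← this, τ_mul, τ_mul]
      exact .inr (Set.smul_mem_smul_set (.inl k)))
  exact ⟨a, a (K.σ_τ _)⟩

lemma exN [Finite X] : ∃ N, 0 < N ∧ ∀ l, K.B φ l → φ^[N] (φ^[N] (K.q [l])) = φ^[N] (K.q [l]) := by
  have : ∀ l, K.B φ l → ∃ d, 0 < d ∧ ∀ c, 0 < c →
      φ^[d * c] (φ^[d * c] (K.q [l])) = φ^[d * c] (K.q [l]) := fun l h => by
    obtain ⟨i, -, j, -, ij, e⟩ := Set.infinite_univ.exists_lt_map_eq_of_mapsTo
      (f := fun n => φ^[n] (K.q [l])) (fun n _ => Set.mem_range_self n) h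
    obtain ⟨d, rfl⟩ := Nat.exists_eq_add_of_lt ij
    have p : Function.IsPeriodicPt φ (d + 1) (φ^[i] (K.q [l])) := by
      rw [Function.IsPeriodicPt, Function.IsFixedPt, ← Function.iterate_add_apply, add_comm,
        ← add_assoc, ← e]
    refine ⟨(d + 1) * (i + 1), by positivity, fun c c0 => ?_⟩
    obtain ⟨t, e⟩ : ∃ t, (d + 1) * (i + 1) * c = t + i :=
      ⟨_, (Nat.sub_add_cancel (by nlinarith [Nat.zero_le (d * (i + 1) * c)])).symm⟩
    have := ((p.mul_const ((i + 1) * c)).apply_iterate t).eq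
    rwa [← Function.iterate_add_apply _ t, ← e, ← mul_assoc] at this
  choose! d d0 hd using this
  have := Fintype.ofFinite (X × Bool)
  classical
  refine ⟨∏ l ∈ Finset.univ.filter (K.B φ), d l, Finset.prod_pos (by simpa using d0), fun l h => ?_⟩
  rw [← Finset.mul_prod_erase _ _ (show l ∈ _ by simpa using h)]
  exact hd l h _ (Finset.prod_pos fun l h => d0 l (by simpa using (Finset.mem_erase.1 h).2))

omit K in
lemma dist {m : List (X × Bool)} {a b : FreeGroup X} (h : a ∈ T m) (k : b ∈ T m) :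
    ∃ r, mk r = a⁻¹ * b ∧ r.length ≤ m.length := by
  obtain ⟨i, rfl⟩ := h
  obtain ⟨j, rfl⟩ := k
  rcases le_total i j with c | c <;> obtain ⟨r, e⟩ := List.take_prefix_take_left (l := m) c <;>
    have := congrArg List.length e <;> simp only [List.length_append, List.length_take] at this
  · exact ⟨r, by rw [← e, ← mul_mk, inv_mul_cancel_left], by omega⟩
  · exact ⟨invRev r, by rw [← e, ← mul_mk, ← inv_mk]; group, by rw [invRev_length]; omega⟩

theorem main [Finite X] {L : Language (X × Bool)} (hL : L.IsContextFree)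
    (h : K.q '' L = {x | φ x = x}) :
    ∃ L : Language (X × Bool), L.IsRegular ∧ K.q '' L = {x | φ x = x} := by
  obtain ⟨N, N0, hN⟩ := K.exN φ
  have key : ∀ l, K.B φ l → K.bar φ (K.σ (φ^[N] (K.q [l]))) = K.σ (φ^[N] (K.q [l])) := by
    intro l hl
    have hs := hN l hl
    generalize φ^[N] (K.q [l]) = s at hs
    by_contra hc
    obtain ⟨p, hp⟩ := pump' hL
    obtain ⟨n, hn⟩ : ∃ n : ℕ, ∀ r, mk r = (K.σ s ^ n)⁻¹ * K.bar φ (K.σ s) ^ n → p < r.length := by
      by_contra hn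
      push Not at hn
      obtain ⟨i, -, j, -, ij, e⟩ := Set.infinite_univ.exists_lt_map_eq_of_mapsTo
        (f := fun n : ℕ => (K.σ s ^ n)⁻¹ * K.bar φ (K.σ s) ^ n)
        (fun n _ => (hn n).imp fun r => And.symm) ((List.finite_length_le (X × Bool) p).image mk)
      obtain ⟨d, rfl⟩ := Nat.exists_eq_add_of_lt ij
      rw [add_assoc, add_comm i, pow_add _ (d + 1), pow_add _ (d + 1), mul_inv_rev, mul_assoc,
        mul_right_inj, ← mul_assoc, right_eq_mul, inv_mul_eq_one] at e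
      exact hc (pow_left_injective d.succ_ne_zero e).symm
    have Lf : ∀ w ∈ L, φ (K.q w) = K.q w := fun w a => h.le ⟨w, a, rfl⟩
    have i1 : ∀ w ∈ L, ∀ g ∈ T w, K.bar φ g ∈ T w := fun w a g b => by
      rw [← K.τ_q] at b ⊢; exact K.inv_τ φ (Lf w a) b
    have i2 : ∀ w ∈ L, ∀ c, K.bar φ c = c → c * K.bar φ (K.σ s) ^ n ∈ T w → c * K.σ s ^ n ∈ T w := by
      intro w a c b d
      have : ∀ j, c * K.σ (φ^[j + 1] s) ^ n ∈ T w := fun j => by
        induction j with
        | zero => simpa [σ_φ] using d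
        | succ j ih =>
          have := i1 w a _ ih
          rwa [map_mul, map_pow, b, ← σ_φ, ← Function.iterate_succ_apply' φ] at this
      have := this (N - 1)
      rwa [Nat.sub_add_cancel N0, hs] at this
    have : ∀ k, ∀ w ∈ L, w.length = k → ∀ c, K.bar φ c = c → c * K.σ s ^ n ∉ T w := by
      intro k
      induction k using Nat.strong_induction_on with | _ k ih => ?_
      rintro w a rfl c b d
      have d' := i1 w a _ d
      rw [map_mul, map_pow, b] at d'
      obtain ⟨r, r1, r2⟩ := dist d d'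
      obtain ⟨u, m, x, t, rfl, e1, e2, e3⟩ := hp w a ((hn r (by rw [r1]; group)).trans_le r2)
      have ih := ih _ (by simp only [List.length_append]; omega) _ e3 rfl
      have fx : ∀ w ∈ L, K.bar φ (mk w) = mk w := fun w a => by rw [← K.σ_q, ← σ_φ, Lf w a]
      have : ∀ g, c * g ∈ T (u ++ m ++ t) → c * g ∈ mk u • T m ∨
          ∃ c, K.bar φ c = c ∧ c * g ∈ T (u ++ x ++ t) := fun g k => by
        rw [T_app, T_app] at k
        obtain (k | k) | ⟨z, k, e⟩ := k
        · exact .inr ⟨c, b, by rw [T_app, T_app]; exact .inl (.inl k)⟩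
        · exact .inl k
        · refine .inr ⟨mk (u ++ x ++ t) * (mk (u ++ m ++ t))⁻¹ * c, by
            rw [map_mul, map_mul, map_inv, fx _ a, fx _ e3, b], ?_⟩
          rw [T_app]
          refine .inr ⟨z, k, ?_⟩
          simp only [smul_eq_mul, ← mul_mk] at e ⊢
          rw [mul_assoc _ c, ← e]; group
      obtain ⟨z, k, e⟩ | ⟨c, k, e⟩ := this _ d
      · obtain ⟨z', k', e'⟩ | ⟨c, k', e'⟩ := this _ d'
        · obtain ⟨r, r1, r2⟩ := dist k k'
          simp only [smul_eq_mul] at e e'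
          have := hn r (by rw [r1, eq_inv_mul_iff_mul_eq.2 e, eq_inv_mul_iff_mul_eq.2 e']; group)
          omega
        · exact ih c k' (i2 _ e3 c k' e')
      · exact ih c k e
    obtain ⟨e, e1, -, e3⟩ := K.exE φ N0 (x := s ^ n) (by rw [iterate_map_pow, hs])
    obtain ⟨w, a, rfl⟩ := h.ge e1
    refine this _ w a rfl 1 (map_one _) ?_
    rw [one_mul, ← K.τ_q, e3, ← σ_pow]
    exact Set.mem_iUnion.2 ⟨0, K.σ_τ _⟩
  have : ∀ l, K.B φ l → ∃ w, φ (K.q w) = K.q w ∧ mk w = K.σ (φ^[N] (K.q [l])) ∧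
      T w = K.O φ (φ^[N] (K.q [l])) := fun l hl => by
    have hs := hN l hl
    have k := key l hl
    generalize φ^[N] (K.q [l]) = s at hs k
    obtain ⟨e, e1, e2, e3⟩ := K.exE φ N0 hs
    have t : ∀ j, K.τ (e * φ^[j] s) = K.O φ s := fun j => by
      rw [τ_mul, e2, e3, one_smul]
      exact Set.union_eq_self_of_subset_right (Set.subset_iUnion (fun k => K.τ (φ^[k] s)) j)
    refine ⟨K.out (e * s), ?_, by rw [← σ, σ_mul, e2, one_mul], t 0⟩
    rw [q_out, map_mul, e1]
    exact K.ext ((t 1).trans (t 0).symm) (by rw [σ_mul, σ_mul, σ_φ, k])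
  choose! W w1 w2 w3 using this
  refine ⟨_, star_reg ((Set.toFinite {l | K.B φ l}).image W), Set.Subset.antisymm ?_ fun x hx => ?_⟩
  · rintro _ ⟨_, ⟨L, a, rfl⟩, rfl⟩
    induction L with
    | nil => simp [K.nil]
    | cons y L ih =>
      obtain ⟨l, b, rfl⟩ := a y (by simp)
      rw [Set.mem_setOf_eq, List.flatten_cons, K.app, map_mul, w1 l b, ih fun y e => a y (by simp [e])]
  · obtain ⟨w, rfl⟩ := K.surj x
    have hw : ∀ l ∈ w, K.B φ l := fun l => K.B_of φ hx
    refine ⟨_, ⟨w.map W, fun y e => (List.mem_map.1 e).imp fun l a => ⟨hw l a.1, a.2⟩, rfl⟩, ?_⟩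
    have : mk (w.map W).flatten = K.σ (φ^[N] (K.q w)) ∧ T (w.map W).flatten = K.O φ (φ^[N] (K.q w)) := by
      clear hx
      induction w with
      | nil => simp [K.nil, iterate_map_one, σ_one, K.O_fix φ (map_one φ), τ_one, T_nil, ← one_eq_mk]
      | cons l w ih =>
        have b := hw l (by simp)
        obtain ⟨c, d⟩ := ih fun y e => hw y (by simp [e])
        rw [List.map_cons, List.flatten_cons, T_app, ← mul_mk, c, d, w2 l b, w3 l b,
          show K.q (l :: w) = _ from K.app [l] w, it_mul, σ_mul, K.O_mul φ (key l b)]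
        exact ⟨rfl, rfl⟩
    rw [Function.iterate_fixed hx, K.O_fix φ hx] at this
    exact K.ext (by rw [τ_q, this.2]) (by rw [σ_q, this.1])

end MM

end Pool.Agent.H.MP_3f8f93_al
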