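import Pool.Agent.Lib.helper21.CFG

set_option autoImplicit false
set_option linter.unusedVariables false
set_option linter.unusedSectionVars false

namespace Pool.Agent.H.MP_3f8f93_al

open List Relation Classical Pool.Agent.Lib.helper21.CFG Symbol

variable {T N : Type}

inductive Hl (R : Set (ContextFreeRule T N)) : N → List T → N → List T → Prop
  | refl (X) : Hl R X [] X []
  | step {X l1 Z l2 u1 v1 u Y v} : ⟨X, l1 ++ nonterminal Z :: l2⟩ ∈ R → Gen R l1 u1 → Gen R l2 v1 →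
      Hl R Z u Y v → Hl R X (u1 ++ u) Y (v ++ v1)

variable {R : Set (ContextFreeRule T N)}

theorem gmid {l1 l2 Z u z v} (a : Gen R l1 u) (b : Gen R [nonterminal Z] z) (c : Gen R l2 v) :
    Gen R (l1 ++ nonterminal Z :: l2) (u ++ z ++ v) := by simpa using (a.append b).append c

theorem gsplit {l1 l2 x w} (h : Gen R (l1 ++ x :: l2) w) :
    ∃ u z v, Gen R l1 u ∧ Gen R [x] z ∧ Gen R l2 v ∧ w = u ++ z ++ v := by
  obtain ⟨u, _, rfl, a, b⟩ := h.split
  obtain ⟨z, v, rfl, c, d⟩ := Gen.split (l := [x]) b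
  exact ⟨u, z, v, a, c, d, by simp⟩

theorem Hl.gen {X u Y v w} (h : Hl R X u Y v) (a : Gen R [nonterminal Y] w) :
    Gen R [nonterminal X] (u ++ w ++ v) := by
  induction h with
  | refl => simpa
  | step b c d _ ih => simpa using Gen.one b (gmid c (ih a) d)

theorem Hl.trans {X u Y v u' Z v'} (h : Hl R X u Y v) (a : Hl R Y u' Z v') :
    Hl R X (u ++ u') Z (v' ++ v) := by
  induction h with
  | refl => simpa
  | step b c d _ ih => simpa using Hl.step b c d (ih a)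

theorem Hl.one {X l1 Z l2 u v} (b : ⟨X, l1 ++ nonterminal Z :: l2⟩ ∈ R) (c : Gen R l1 u)
    (d : Gen R l2 v) : Hl R X u Z v := by simpa using Hl.step b c d (.refl Z)

theorem semGen {P : N → List T → Prop} {l w}
    (h : Sem (fun Z z => Gen R [nonterminal Z] z ∧ P Z z) l w) : Gen R l w := by
  induction h with
  | nil => exact .nil
  | ter t _ ih => exact .ter t ih
  | nt a _ ih => exact a.1.append ih

theorem gind {P : N → List T → Prop} (h : ∀ r ∈ R, ∀ w,
    Sem (fun Z z => Gen R [nonterminal Z] z ∧ P Z z) r.output w → P r.input w) {Y w}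
    (a : Gen R [nonterminal Y] w) : P Y w := by
  have := a.sound (I := fun Z z => Gen R [nonterminal Z] z ∧ P Z z)
    fun r b w c => ⟨.one b (semGen c), h r b w c⟩
  simp only [sem_nt, sem_nil] at this
  obtain ⟨u, _, b, rfl, rfl⟩ := this
  simpa using b.2

theorem sem_app {I : N → List T → Prop} {l1 l2 w} (h : Sem I (l1 ++ l2) w) :
    ∃ u v, Sem I l1 u ∧ Sem I l2 v ∧ w = u ++ v := by
  induction l1 generalizing w with
  | nil => exact ⟨[], w, .nil, h, rfl⟩
  | cons x l ih =>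
    rw [cons_append] at h
    cases h with
    | ter t h =>
      obtain ⟨u, v, a, b, rfl⟩ := ih h
      exact ⟨_, v, .ter t a, b, rfl⟩
    | nt c h =>
      obtain ⟨u, v, a, b, rfl⟩ := ih h
      exact ⟨_, v, .nt c a, b, by simp⟩

theorem big {I : N → List T → Prop} {l w m} (h : Sem I l w) (m0 : 0 < m) (a : l.length * m < w.length) :
    ∃ l1 Z l2 u z v, l = l1 ++ nonterminal Z :: l2 ∧ Sem I l1 u ∧ I Z z ∧ Sem I l2 v ∧
      w = u ++ z ++ v ∧ m < z.length := by
  induction h with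
  | nil => simp at a
  | ter t _ ih =>
    obtain ⟨l1, Z, l2, u, z, v, rfl, b, c, d, rfl, e⟩ := ih (by
      simp only [length_cons, Nat.succ_mul] at a; omega)
    exact ⟨_ :: l1, Z, l2, t :: u, z, v, rfl, .ter t b, c, d, rfl, e⟩
  | @nt X l w w' b c ih =>
    by_cases e : m < w.length
    · exact ⟨[], X, l, [], w, w', rfl, .nil, b, c, rfl, e⟩
    obtain ⟨l1, Z, l2, u, z, v, rfl, b', c', d, rfl, e'⟩ := ih (by
      simp only [length_cons, Nat.succ_mul, length_append] at a; omega)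
    exact ⟨_ :: l1, Z, l2, w ++ u, z, v, rfl, .nt b b', c', d, by simp, e'⟩

theorem window {L m : ℕ} (hL : ∀ r ∈ R, r.output.length ≤ L) (m0 : 0 < m) {Y w}
    (h : Gen R [nonterminal Y] w) : m < w.length → ∃ Z u z v, Hl R Y u Z v ∧ Gen R [nonterminal Z] z ∧
      w = u ++ z ++ v ∧ m < z.length ∧ z.length ≤ L * m := by
  refine gind (P := fun Y w => m < w.length → ∃ Z u z v, Hl R Y u Z v ∧ Gen R [nonterminal Z] z ∧
      w = u ++ z ++ v ∧ m < z.length ∧ z.length ≤ L * m) (fun r a w b c => ?_) h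
  by_cases d : w.length ≤ L * m
  · exact ⟨_, [], w, [], .refl _, .one a (semGen b), by simp, c, d⟩
  obtain ⟨X, l⟩ := r
  obtain ⟨l1, Z, l2, u, z, v, rfl, e1, e2, e3, rfl, e⟩ := big b m0
    ((Nat.mul_le_mul_right _ (hL _ a)).trans_lt (not_le.1 d))
  obtain ⟨Z', u', z', v', f1, f2, rfl, f3⟩ := e2.2 e
  exact ⟨Z', _, z', _, .step a (semGen e1) (semGen e3) f1, f2, by simp, f3⟩

theorem inp {Z z} (h : Gen R [nonterminal Z] z) : Z ∈ ContextFreeRule.input '' R := by
  cases h with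
  | nt a => exact ⟨_, a, rfl⟩

theorem exL (hR : R.Finite) : ∃ L, 0 < L ∧ ∀ r ∈ R, r.output.length ≤ L :=
  let ⟨L, h⟩ := (hR.image fun r => r.output.length).bddAbove
  ⟨L + 1, by omega, fun r a => (h ⟨r, a, rfl⟩).trans (by omega)⟩

theorem pump (hR : R.Finite) (S : N) : ∃ p, ∀ z, Gen R [nonterminal S] z → p < z.length →
    ∃ u v x y t, z = u ++ (v ++ x ++ y) ++ t ∧ (v ++ x ++ y).length ≤ p ∧ v ++ y ≠ [] ∧
      Gen R [nonterminal S] (u ++ x ++ t) := by
  obtain ⟨L, L0, hL⟩ := exL hR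
  have key : ∀ k Y w, Gen R [nonterminal Y] w → L ^ k < w.length →
      (∃ A u v x y t, Hl R Y u A t ∧ Hl R A v A y ∧ Gen R [nonterminal A] x ∧
        w = u ++ (v ++ x ++ y) ++ t ∧ (v ++ x ++ y).length ≤ L ^ k ∧ v ++ y ≠ []) ∨
      ∃ B : Finset N, k ≤ B.card ∧ ∀ Z ∈ B, ∃ u z v, Hl R Y u Z v ∧ Gen R [nonterminal Z] z ∧
        w = u ++ z ++ v ∧ z.length ≤ L ^ k := by
    intro k
    induction k with
    | zero => exact fun _ _ _ _ => .inr ⟨∅, le_rfl, by simp⟩
    | succ k ih =>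
      intro Y w a b
      have c : L ^ k ≤ L ^ (k + 1) := Nat.pow_le_pow_right L0 (by omega)
      obtain ⟨Z, u, z, v, d1, d2, rfl, d3, d4⟩ := window hL (Nat.pow_pos (n := k) L0) a (by omega)
      rw [← pow_succ'] at d4
      obtain ⟨A, u', v', x, y, t, e1, e2, e3, rfl, e4, e5⟩ | ⟨B, e1, e2⟩ := ih Z z d2 d3
      · exact .inl ⟨A, _, v', x, y, _, d1.trans e1, e2, e3, by simp, by omega, e5⟩
      by_cases f : Z ∈ B
      · obtain ⟨v', x, y, f1, f2, rfl, f3⟩ := e2 Z f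
        refine .inl ⟨Z, u, v', x, y, v, d1, f1, f2, rfl, d4, fun e => ?_⟩
        obtain ⟨rfl, rfl⟩ := append_eq_nil_iff.1 e
        simp at d3
        omega
      · refine .inr ⟨insert Z B, by rw [Finset.card_insert_of_notMem f]; omega, fun W e => ?_⟩
        obtain rfl | e := Finset.mem_insert.1 e
        · exact ⟨u, z, v, d1, d2, rfl, d4⟩
        · obtain ⟨u', z', v', f1, f2, rfl, f3⟩ := e2 W e
          exact ⟨_, z', _, d1.trans f1, f2, by simp, by omega⟩
  refine ⟨L ^ ((hR.image ContextFreeRule.input).toFinset.card + 1), fun w a b => ?_⟩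
  obtain ⟨A, u, v, x, y, t, e1, e2, e3, rfl, e4, e5⟩ | ⟨B, e1, e2⟩ := key _ S w a b
  · exact ⟨u, v, x, y, t, rfl, e4, e5, e1.gen e3⟩
  · have := Finset.card_le_card (s := B) (t := (hR.image ContextFreeRule.input).toFinset) fun Z e => by
      obtain ⟨_, _, _, -, f, -⟩ := e2 Z e
      simpa using inp f
    omega

theorem pump' {L : Language T} (h : L.IsContextFree) : ∃ p, ∀ z ∈ L, p < z.length →
    ∃ u m x t, z = u ++ m ++ t ∧ m.length ≤ p ∧ x.length < m.length ∧ u ++ x ++ t ∈ L := by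
  obtain ⟨g, rfl⟩ := h
  obtain ⟨p, h⟩ := pump g.rules.finite_toSet g.initial
  refine ⟨p, fun z a b => ?_⟩
  obtain ⟨u, v, x, y, t, c, d, e, f⟩ := h z ((mem_language_iff_gen g z).1 a) b
  refine ⟨u, _, x, t, c, d, ?_, (mem_language_iff_gen g _).2 f⟩
  have := length_pos_iff.2 e
  simp only [length_append] at this ⊢
  omega

theorem star_reg {F : Set (List T)} (h : F.Finite) :
    Language.IsRegular {w | ∃ L : List (List T), (∀ y ∈ L, y ∈ F) ∧ w = L.flatten} := by
  obtain ⟨K, hK⟩ : ∃ K : Language T,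
      K = {w | ∃ L : List (List T), (∀ y ∈ L, y ∈ F) ∧ w = L.flatten} := ⟨_, rfl⟩
  have m : ∀ w, w ∈ K ↔ ∃ L : List (List T), (∀ y ∈ L, y ∈ F) ∧ w = L.flatten := fun w => hK ▸ Iff.rfl
  rw [← hK]
  have app : ∀ a b, a ∈ K → b ∈ K → a ++ b ∈ K := fun a b x y => by
    obtain ⟨L, x', rfl⟩ := (m _).1 x
    obtain ⟨L', y', rfl⟩ := (m _).1 y
    exact (m _).2 ⟨L ++ L', fun z e => (mem_append.1 e).elim (x' z) (y' z), by simp⟩
  have f : (insert [] (⋃ w ∈ F, {u | u ∈ w.tails}) : Set (List T)).Finite :=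
    (h.biUnion fun w _ => finite_toSet w.tails).insert _
  refine .of_finite_range_leftQuotient ((f.finite_subsets.image
    fun U => ({w | ∃ u ∈ U, ∃ y ∈ K, w = u ++ y} : Language T)).subset ?_)
  rintro _ ⟨x, rfl⟩
  refine ⟨_, Set.sep_subset _ fun u => x ++ u ∈ K, Set.ext fun w => ⟨?_, fun e => ?_⟩⟩
  · rintro ⟨u, a, y, b, rfl⟩
    exact (append_assoc x u y ▸ app _ _ a.2 b :)
  · replace e := (m _).1 (show x ++ w ∈ K from e)
    obtain ⟨L, a, e⟩ := e
    induction L generalizing x with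
    | nil =>
      obtain ⟨rfl, rfl⟩ := append_eq_nil_iff.1 e
      exact ⟨[], ⟨.inl rfl, (m _).2 ⟨[], by simp⟩⟩, [], (m _).2 ⟨[], by simp⟩, rfl⟩
    | cons g L ih =>
      have k : g ∈ K := (m _).2 ⟨[g], by simpa using a g (by simp), by simp⟩
      have a' : ∀ y ∈ L, y ∈ F := fun y e => a y (by simp [e])
      obtain ⟨u, rfl, d⟩ | ⟨u, rfl, d⟩ := append_eq_append_iff.1 e
      · exact ⟨u, ⟨.inr (Set.mem_biUnion (a _ (by simp)) ((mem_tails _ _).2 ⟨x, rfl⟩)), k⟩, _,
          (m _).2 ⟨L, a', rfl⟩, d⟩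
      · obtain ⟨u', b, c⟩ := ih u a' d.symm
        exact ⟨u', ⟨b.1, append_assoc g u u' ▸ app _ _ k b.2⟩, c⟩

end Pool.Agent.H.MP_3f8f93_al
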